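import Pool.Agent.Lib.MP_6ff8d9_an_h23.N2Rows

/-!
# MP_6ff8d9, dimension 2: the one-parameter groups of the three normal forms
-/

open Metric Filter Topology MvPolynomial Matrix
open scoped ComplexConjugate

namespace Pool.Agent.Lib.MP_6ff8d9_an.N2

open Pool.Agent.Lib.MP_6ff8d9_an Pool.Agent.Lib.MP_6ff8d9_an.H22

noncomputable section

/-- exponential of a matrix with zero cube -/
theorem exp_cube (A : Matrix (Fin 3) (Fin 3) ℂ) (h : A ^ 3 = 0) :
    NormedSpace.exp A = 1 + A + (1 / 2 : ℂ) • A ^ 2 := by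
  rw [NormedSpace.exp_eq_tsum ℂ]
  simp only
  rw [tsum_eq_sum (s := Finset.range 3)]
  · simp [Finset.sum_range_succ, Nat.factorial]
  · intro n hn
    have h3 : 3 ≤ n := by simpa using hn
    obtain ⟨k, rfl⟩ := Nat.exists_eq_add_of_le h3
    rw [pow_add, h, zero_mul, smul_zero]

theorem exp_fun3 (v : Fin 3 → ℂ) : NormedSpace.exp v = fun i => Complex.exp (v i) := by
  funext i
  rw [Pi.coe_exp, Complex.exp_eq_exp_ℂ]

theorem diag3 (x y z : ℂ) : Matrix.diagonal ![x, y, z] = !![x, 0, 0; 0, y, 0; 0, 0, z] := by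
  ext i j
  fin_cases i <;> fin_cases j <;> simp [Matrix.diagonal]

/-- the nilpotent normal form -/
theorem grp_n (c : ℝ) (hc : c ≠ 0) (s : ℂ) (Z : Fin 3 → ℂ) :
    grp (nmat c) (s / (Complex.I * c)) *ᵥ Z =
      ![Z 0 + s * Z 2 + s ^ 2 / 2 * (Z 0 - Z 1), Z 1 + s * Z 2 + s ^ 2 / 2 * (Z 0 - Z 1),
        Z 2 + s * (Z 0 - Z 1)] := by
  have hcc : Complex.I * (c : ℂ) ≠ 0 :=
    mul_ne_zero Complex.I_ne_zero (Complex.ofReal_ne_zero.2 hc)
  have e : (s / (Complex.I * c)) • nmat c = s • !![(0 : ℂ), 0, 1; 0, 0, 1; 1, -1, 0] := by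
    rw [nmat, smul_smul, div_mul_cancel₀ _ hcc]
  have h2 : (s • !![(0 : ℂ), 0, 1; 0, 0, 1; 1, -1, 0]) ^ 2 =
      s ^ 2 • !![(1 : ℂ), -1, 0; 1, -1, 0; 0, 0, 0] := by
    rw [smul_pow]
    congr 1
    ext i j
    fin_cases i <;> fin_cases j <;> simp [pow_two, Matrix.mul_apply, Fin.sum_univ_three]
  have h3 : (s • !![(0 : ℂ), 0, 1; 0, 0, 1; 1, -1, 0]) ^ 3 = 0 := by
    rw [pow_succ, h2]
    ext i j
    fin_cases i <;> fin_cases j <;> simp [Matrix.mul_apply, Fin.sum_univ_three]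
  rw [grp, e, exp_cube _ h3, h2]
  ext i
  fin_cases i <;> simp [Matrix.mulVec, dotProduct, Fin.sum_univ_three] <;> ring

/-- the parabolic normal form with two blocks -/
theorem grp_p (τ b : ℝ) (t : ℂ) (Z : Fin 3 → ℂ) :
    grp (pmat τ b) t *ᵥ Z =
      ![Complex.exp (τ * t) * (Z 0 + b * t * (Z 0 - Z 1)),
        Complex.exp (τ * t) * (Z 1 + b * t * (Z 0 - Z 1)), Z 2] := by
  have e : t • pmat τ b = Matrix.diagonal ![(τ : ℂ) * t, τ * t, 0] +
      (b * t : ℂ) • !![(1 : ℂ), -1, 0; 1, -1, 0; 0, 0, 0] := by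
    ext i j
    fin_cases i <;> fin_cases j <;> simp [pmat, Matrix.diagonal] <;> ring
  have h2 : ((b * t : ℂ) • !![(1 : ℂ), -1, 0; 1, -1, 0; 0, 0, 0]) ^ 2 = 0 := by
    ext i j
    fin_cases i <;> fin_cases j <;> simp [pow_two, Matrix.mul_apply, Fin.sum_univ_three]
  have h3 : ((b * t : ℂ) • !![(1 : ℂ), -1, 0; 1, -1, 0; 0, 0, 0]) ^ 3 = 0 := by
    rw [pow_succ, h2, zero_mul]
  have hcomm : Commute (Matrix.diagonal ![(τ : ℂ) * t, τ * t, 0])
      ((b * t : ℂ) • !![(1 : ℂ), -1, 0; 1, -1, 0; 0, 0, 0]) := by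
    rw [Commute, SemiconjBy]
    ext i j
    fin_cases i <;> fin_cases j <;>
      simp [Matrix.mul_apply, Fin.sum_univ_three, Matrix.diagonal] <;> ring
  rw [grp, e, Matrix.exp_add_of_commute _ _ hcomm, Matrix.exp_diagonal, exp_cube _ h3, h2,
    exp_fun3]
  ext i
  fin_cases i <;>
    simp [Matrix.mulVec, dotProduct, Fin.sum_univ_three, Matrix.mul_apply, Matrix.diagonal,
      Matrix.add_apply, Matrix.one_apply] <;> ring

/-- the hyperbolic normal form -/
theorem grp_h (τ b : ℝ) (t : ℂ) (Z : Fin 3 → ℂ) :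
    grp (hmat τ b) t *ᵥ Z =
      ![Complex.exp (τ * t) * (Complex.cos (b * t) * Z 0 - Complex.sin (b * t) * Z 1),
        Complex.exp (τ * t) * (Complex.sin (b * t) * Z 0 + Complex.cos (b * t) * Z 1), Z 2] := by
  have hI : Complex.I * Complex.I = -1 := Complex.I_mul_I
  have hUV : (!![1, 1, 0; -Complex.I, Complex.I, 0; 0, 0, 1] : Matrix (Fin 3) (Fin 3) ℂ) *
      !![1 / 2, Complex.I / 2, 0; 1 / 2, -Complex.I / 2, 0; 0, 0, 1] = 1 := by
    ext i j
    fin_cases i <;> fin_cases j <;>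
      simp [Matrix.mul_apply, Fin.sum_univ_three, Matrix.one_apply]
    · norm_num
    · ring
    · linear_combination (-1 : ℂ) * hI
  have hVU := mul_eq_one_comm.1 hUV
  have hinv := Matrix.inv_eq_right_inv hUV
  have hu : IsUnit (!![1, 1, 0; -Complex.I, Complex.I, 0; 0, 0, 1] : Matrix (Fin 3) (Fin 3) ℂ) :=
    ⟨⟨_, _, hUV, hVU⟩, rfl⟩
  have e : t • hmat τ b = !![1, 1, 0; -Complex.I, Complex.I, 0; 0, 0, 1] *
      Matrix.diagonal ![((τ : ℂ) + Complex.I * b) * t, ((τ : ℂ) - Complex.I * b) * t, 0] *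
      (!![1, 1, 0; -Complex.I, Complex.I, 0; 0, 0, 1])⁻¹ := by
    rw [hinv, diag3]
    ext i j
    fin_cases i <;> fin_cases j <;>
      simp [hmat, Matrix.mul_apply, Fin.sum_univ_three]
    · ring
    · linear_combination (-(b : ℂ) * t) * hI
    · linear_combination ((b : ℂ) * t) * hI
    · linear_combination ((τ : ℂ) * t) * hI
  rw [grp, e, Matrix.exp_conj _ _ hu, Matrix.exp_diagonal, hinv, exp_fun3]
  have e1 : Complex.exp (((τ : ℂ) + Complex.I * b) * t) =
      Complex.exp (τ * t) * (Complex.cos (b * t) + Complex.sin (b * t) * Complex.I) := by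
    rw [← Complex.exp_mul_I, ← Complex.exp_add]; congr 1; ring
  have e2 : Complex.exp (((τ : ℂ) - Complex.I * b) * t) =
      Complex.exp (τ * t) * (Complex.cos (b * t) - Complex.sin (b * t) * Complex.I) := by
    have : Complex.cos (b * t) - Complex.sin (b * t) * Complex.I =
        Complex.cos (-(b * t)) + Complex.sin (-(b * t)) * Complex.I := by
      rw [Complex.cos_neg, Complex.sin_neg]; ring
    rw [this, ← Complex.exp_mul_I, ← Complex.exp_add]; congr 1; ring
  have e3 : (fun i => Complex.exp ((![((τ : ℂ) + Complex.I * b) * t,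
      ((τ : ℂ) - Complex.I * b) * t, 0] : Fin 3 → ℂ) i)) =
      ![Complex.exp (τ * t) * (Complex.cos (b * t) + Complex.sin (b * t) * Complex.I),
        Complex.exp (τ * t) * (Complex.cos (b * t) - Complex.sin (b * t) * Complex.I), 1] := by
    funext i
    fin_cases i
    · simpa using e1
    · simpa using e2
    · simp
  rw [e3, diag3]
  ext i
  fin_cases i <;>
    simp [Matrix.mulVec, dotProduct, Fin.sum_univ_three, Matrix.mul_apply]
  · linear_combination (Complex.exp (τ * t) * Complex.sin (b * t) * Z 1) * hI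
  · linear_combination (-(Complex.exp (τ * t) * Complex.sin (b * t) * Z 0) -
      Complex.exp (τ * t) * Complex.cos (b * t) * Z 1) * hI

end

end Pool.Agent.Lib.MP_6ff8d9_an.N2
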