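import Pool.Agent.Lib.MP_6ff8d9_an_h33.Tool3

/-!
# Row KH: hyperbolic normal form
-/

open Metric Filter Topology MvPolynomial Matrix
open scoped ComplexConjugate

namespace Pool.Agent.Lib.MP_6ff8d9_an.N2

open Pool.Agent.Lib.MP_6ff8d9_an Pool.Agent.Lib.MP_6ff8d9_an.H22

noncomputable section

theorem one_add_sq {z : Fin 2 → ℂ} (hz : z ∈ Bn 2) : ‖z 1‖ ^ 2 < ‖1 + z 0 ^ 2‖ := by
  rw [mem_Bn2] at hz
  have h1 : 1 - ‖z 0‖ ^ 2 ≤ ‖1 + z 0 ^ 2‖ := by
    have h2 := norm_sub_norm_le (1 : ℂ) (-(z 0 ^ 2))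
    rw [sub_neg_eq_add, norm_neg, norm_one, norm_pow] at h2
    exact h2
  linarith

/-- the rotation which kills the second coordinate -/
theorem rot_ex (b : ℝ) (hb : b ≠ 0) (x s : ℂ) (hs : s ^ 2 = 1 + x ^ 2) (hs0 : s ≠ 0) :
    ∃ t : ℂ, Complex.cos (b * t) - Complex.sin (b * t) * x = s ∧
      Complex.sin (b * t) + Complex.cos (b * t) * x = 0 := by
  have hbc : (b : ℂ) ≠ 0 := Complex.ofReal_ne_zero.2 hb
  have hI : Complex.I * Complex.I = -1 := Complex.I_mul_I
  have hprod : (1 - Complex.I * x) * (1 + Complex.I * x) = s ^ 2 := by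
    rw [hs]; linear_combination (-x ^ 2) * hI
  have hm : (1 - Complex.I * x) ≠ 0 := by
    intro h
    rw [h, zero_mul] at hprod
    exact hs0 (pow_eq_zero_iff (two_ne_zero) |>.1 hprod.symm)
  set w : ℂ := (1 - Complex.I * x) / s with hw
  have hw0 : w ≠ 0 := div_ne_zero hm hs0
  have hwi : w⁻¹ = (1 + Complex.I * x) / s := by
    rw [hw, inv_div, div_eq_div_iff hm hs0]
    linear_combination -hprod
  refine ⟨-Complex.I * Complex.log w / b, ?_⟩
  have e0 : (b : ℂ) * (-Complex.I * Complex.log w / b) * Complex.I = Complex.log w := by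
    field_simp
    linear_combination (-Complex.log w) * hI
  have e1 : Complex.exp ((b : ℂ) * (-Complex.I * Complex.log w / b) * Complex.I) = w := by
    rw [e0, Complex.exp_log hw0]
  have e2 : Complex.exp (-((b : ℂ) * (-Complex.I * Complex.log w / b)) * Complex.I) = w⁻¹ := by
    rw [neg_mul, Complex.exp_neg, e1]
  have hc : Complex.cos ((b : ℂ) * (-Complex.I * Complex.log w / b)) = 1 / s := by
    rw [Complex.cos, e1, e2, hwi, hw]
    field_simp
    ring
  have hsn : Complex.sin ((b : ℂ) * (-Complex.I * Complex.log w / b)) = -x / s := by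
    rw [Complex.sin, e1, e2, hwi, hw]
    field_simp
    linear_combination (2 * x) * hI
  rw [hc, hsn]
  constructor
  · field_simp
    linear_combination -hs
  · field_simp
    ring

theorem kh : KH := by
  intro N p q τ b hb hp hq hball hinv
  have hbc : (b : ℂ) ≠ 0 := Complex.ofReal_ne_zero.2 hb
  have hrot : ∀ z ∈ Bn 2, ∃ t : ℂ, ((1 + z 0 ^ 2) ^ (1 / 2 : ℂ) : ℂ) ≠ 0 ∧
      Complex.cos (b * t) - Complex.sin (b * t) * z 0 = (1 + z 0 ^ 2) ^ (1 / 2 : ℂ) ∧
      Complex.sin (b * t) + Complex.cos (b * t) * z 0 = 0 := by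
    intro z hzb
    have h1 := one_add_sq hzb
    have h2 : (1 + z 0 ^ 2 : ℂ) ≠ 0 := by
      intro h
      rw [h, norm_zero] at h1
      nlinarith [norm_nonneg (z 1)]
    have h3 : ((1 + z 0 ^ 2) ^ (1 / 2 : ℂ) : ℂ) ^ 2 = 1 + z 0 ^ 2 := by
      rw [← Complex.cpow_nat_mul]; norm_num
    have h4 : ((1 + z 0 ^ 2) ^ (1 / 2 : ℂ) : ℂ) ≠ 0 := by
      intro h
      rw [h] at h3
      apply h2
      rw [← h3]
      norm_num
    obtain ⟨t, ht⟩ := rot_ex b hb (z 0) _ h3 h4
    exact ⟨t, h4, ht⟩
  by_cases hτ : τ = 0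
  · right
    subst hτ
    constructor
    · intro z hzb
      obtain ⟨t, h1, h2, h3⟩ := hrot z hzb
      have h6 : ‖((1 + z 0 ^ 2) ^ (1 / 2 : ℂ) : ℂ)‖ ^ 2 = ‖(1 + z 0 ^ 2 : ℂ)‖ := by
        rw [← norm_pow, ← Complex.cpow_nat_mul]; norm_num
      have hsq : sq2 z = z 1 / (1 + z 0 ^ 2) ^ (1 / 2 : ℂ) := rfl
      generalize ((1 + z 0 ^ 2) ^ (1 / 2 : ℂ) : ℂ) = s at h1 h2 h6 hsq
      have hI := hinv (hz z) t
      rw [grp_h] at hI
      refine f3_of hp hq _ h1 ?_ (hball z hzb) (hball _ ?_) hI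
      · funext i
        fin_cases i
        · simp [hz]; linear_combination h2
        · simp [hz]; linear_combination h3
        · simp [hz, hsq]
          field_simp
      · rw [mem_Bn2]
        have h5 := one_add_sq hzb
        have h7 : 0 < ‖s‖ := norm_pos_iff.2 h1
        simp only [Matrix.cons_val_zero, Matrix.cons_val_one, norm_zero, hsq, norm_div, div_pow]
        rw [h6]
        have h8 : 0 < ‖(1 + z 0 ^ 2 : ℂ)‖ := by rw [← h6]; positivity
        have h9 : ‖z 1‖ ^ 2 / ‖(1 + z 0 ^ 2 : ℂ)‖ < 1 := (div_lt_one h8).2 h5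
        simpa using h9
    · intro w hw
      have hwb : ∀ u : ℂ, ‖u‖ < 1 → (![0, u] : Fin 2 → ℂ) ∈ Bn 2 := by
        intro u hu
        rw [mem_Bn2]
        have := norm_nonneg u
        simp
        nlinarith
      have hI := hinv (hz ![0, w]) (Real.pi / b)
      rw [grp_h] at hI
      have hbt : (b : ℂ) * (Real.pi / b) = Real.pi := by field_simp
      rw [hbt, Complex.cos_pi, Complex.sin_pi] at hI
      symm
      refine f3_of hp hq (-1) (by norm_num) ?_ (hball _ (hwb w hw))
        (hball _ (hwb (-w) (by rwa [norm_neg]))) hI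
      funext i
      fin_cases i <;> simp [hz]
  · left
    intro z hzb
    obtain ⟨t, h1, h2, h3⟩ := hrot z hzb
    set s : ℂ := (1 + z 0 ^ 2) ^ (1 / 2 : ℂ) with hs
    set v : Fin 3 → Polynomial ℂ := ![Polynomial.X * Polynomial.C s, 0, Polynomial.C (z 1)] with hv
    have hvs : ∀ E : ℂ, (fun i => (v i).eval E) = ![E * s, 0, z 1] := by
      intro E
      funext i
      fin_cases i
      · simp [hv]
        ring
      · simp [hv]
      · simp [hv]
    set T : ℕ → ℂ := fun k => t + k * (2 * Real.pi) / b with hT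
    have hbT : ∀ k, (b : ℂ) * T k = b * t + k * (2 * Real.pi) := by
      intro k
      rw [hT]; field_simp
    have hinj : Function.Injective (fun k : ℕ => Complex.exp (τ * T k)) := by
      intro k l hkl
      have h4 : Complex.exp (τ * T k) / Complex.exp (τ * t) =
          Complex.exp (τ * T l) / Complex.exp (τ * t) := by
        simp only at hkl
        rw [hkl]
      have h5 : ∀ m : ℕ, Complex.exp (τ * T m) / Complex.exp (τ * t) =
          ((Real.exp (τ * (m * (2 * Real.pi) / b)) : ℝ) : ℂ) := by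
        intro m
        rw [← Complex.exp_sub, Complex.ofReal_exp]
        congr 1
        rw [hT]
        push_cast
        ring
      rw [h5, h5] at h4
      have h6 := Real.exp_injective (Complex.ofReal_injective h4)
      have h7 : (k : ℝ) * (2 * Real.pi) / b = l * (2 * Real.pi) / b := mul_left_cancel₀ hτ h6
      rw [div_left_inj' hb] at h7
      have h8 := mul_right_cancel₀ (by positivity) h7
      exact_mod_cast h8
    have hS : (Set.range (fun k : ℕ => Complex.exp (τ * T k))).Infinite :=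
      Set.infinite_range_of_injective hinj
    have h6 := poly_all p q v (eval (hz z) q) (eval (hz z) p) _ hS (by
      rintro E ⟨k, rfl⟩
      have h7 := hinv (hz z) (T k)
      rw [grp_h, hbT, Complex.cos_add_nat_mul_two_pi, Complex.sin_add_nat_mul_two_pi] at h7
      rw [hvs]
      have e3 : (![Complex.exp (τ * T k) * (Complex.cos (b * t) * hz z 0 -
          Complex.sin (b * t) * hz z 1), Complex.exp (τ * T k) * (Complex.sin (b * t) * hz z 0 +
          Complex.cos (b * t) * hz z 1), hz z 2] : Fin 3 → ℂ) =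
          ![Complex.exp (τ * T k) * s, 0, z 1] := by
        funext i
        fin_cases i
        · simp [hz, h2]
        · simp [hz, h3]
        · simp [hz]
      rw [e3] at h7
      exact h7)
    have step : ∀ E : ℂ, E ≠ 0 →
        eval ![E, 0, z 1] p * eval (hz z) q = eval (hz z) p * eval ![E, 0, z 1] q := by
      intro E _
      have h7 := h6 (E / s)
      rw [hvs, div_mul_cancel₀ _ h1] at h7
      exact h7
    have h8 := lim_E hp hq (z 1) (eval (hz z) q) (eval (hz z) p) step
    rw [f3, f3, div_eq_div_iff (hball z hzb) (hball 0 (by rw [mem_Bn2]; simp))]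
    linear_combination -h8

end

end Pool.Agent.Lib.MP_6ff8d9_an.N2
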