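import Pool.Agent.Lib.MP_6ff8d9_an_h33.Tool3

/-!
# Row KP2: parabolic normal form, constant
-/

open Metric Filter Topology MvPolynomial Matrix
open scoped ComplexConjugate

namespace Pool.Agent.Lib.MP_6ff8d9_an.N2

open Pool.Agent.Lib.MP_6ff8d9_an Pool.Agent.Lib.MP_6ff8d9_an.H22

noncomputable section

theorem zero_mem_Bn2 : (0 : Fin 2 → ℂ) ∈ Bn 2 := by rw [mem_Bn2]; simp

theorem kp2 : KP2 := by
  intro N p q τ b hb hτ hp hq hball hinv z hzb
  obtain ⟨_, _, h3⟩ := fX_lt hzb
  have hbc : (b : ℂ) ≠ 0 := Complex.ofReal_ne_zero.2 hb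
  have hτc : (τ : ℂ) ≠ 0 := Complex.ofReal_ne_zero.2 hτ
  have hpi : (2 * Real.pi * Complex.I : ℂ) ≠ 0 := Complex.two_pi_I_ne_zero
  have step : ∀ E : ℂ, E ≠ 0 →
      eval ![E, 0, z 1] p * eval (hz z) q = eval (hz z) p * eval ![E, 0, z 1] q := by
    intro E' hE'
    obtain ⟨E, hE⟩ : ∃ E : ℂ, E = E' / (1 - z 0) := ⟨_, rfl⟩
    have hE0 : E ≠ 0 := by rw [hE]; exact div_ne_zero hE' h3
    have hEE : E * (1 - z 0) = E' := by rw [hE]; exact div_mul_cancel₀ _ h3
    set v : Fin 3 → Polynomial ℂ := ![Polynomial.C E * (1 + Polynomial.X * Polynomial.C (1 - z 0)),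
      Polynomial.C E * (Polynomial.C (z 0) + Polynomial.X * Polynomial.C (1 - z 0)),
      Polynomial.C (z 1)] with hv
    have hvs : ∀ s : ℂ, (fun i => (v i).eval s) =
        ![E * (1 + s * (1 - z 0)), E * (z 0 + s * (1 - z 0)), z 1] := by
      intro s
      funext i
      fin_cases i <;> simp [hv]
    set T : ℕ → ℂ := fun k => (Complex.log E + k * (2 * Real.pi * Complex.I)) / τ with hT
    have hTE : ∀ k, Complex.exp (τ * T k) = E := by
      intro k
      have e1 : (τ : ℂ) * T k = Complex.log E + k * (2 * Real.pi * Complex.I) := by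
        rw [hT]; field_simp
      rw [e1, Complex.exp_add, Complex.exp_log hE0, Complex.exp_nat_mul_two_pi_mul_I, mul_one]
    have hinj : Function.Injective (fun k : ℕ => (b : ℂ) * T k) := by
      intro k l hkl
      have h4 : T k = T l := mul_left_cancel₀ hbc hkl
      simp only [hT] at h4
      rw [div_left_inj' hτc] at h4
      have h5 : (k : ℂ) * (2 * Real.pi * Complex.I) = l * (2 * Real.pi * Complex.I) := by
        linear_combination h4
      exact_mod_cast mul_right_cancel₀ hpi h5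
    have hS : (Set.range (fun k : ℕ => (b : ℂ) * T k)).Infinite :=
      Set.infinite_range_of_injective hinj
    have h6 := poly_all p q v (eval (hz z) q) (eval (hz z) p) _ hS (by
      rintro s ⟨k, rfl⟩
      have h7 := hinv (hz z) (T k)
      rw [grp_p, hTE] at h7
      rw [hvs]
      simpa [hz, mul_assoc] using h7) (-(z 0) / (1 - z 0))
    rw [hvs] at h6
    have e3 : (![E * (1 + -(z 0) / (1 - z 0) * (1 - z 0)),
        E * (z 0 + -(z 0) / (1 - z 0) * (1 - z 0)), z 1] : Fin 3 → ℂ) = ![E', 0, z 1] := by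
      rw [div_mul_cancel₀ _ h3, ← hEE, add_neg_cancel, mul_zero, ← sub_eq_add_neg]
    rw [e3] at h6
    exact h6
  have h8 := lim_E hp hq (z 1) (eval (hz z) q) (eval (hz z) p) step
  rw [f3, f3, div_eq_div_iff (hball z hzb) (hball 0 zero_mem_Bn2)]
  linear_combination -h8

end

end Pool.Agent.Lib.MP_6ff8d9_an.N2
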