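import Pool.Agent.Lib.MP_6ff8d9_an_h33.Tool3

/-!
# Row KP3: the parabolic normal form which gives the second family
-/

open Metric Filter Topology MvPolynomial Matrix
open scoped ComplexConjugate

namespace Pool.Agent.Lib.MP_6ff8d9_an.N2

open Pool.Agent.Lib.MP_6ff8d9_an Pool.Agent.Lib.MP_6ff8d9_an.H22

noncomputable section

theorem kp3 : KP3 := by
  intro N p q c hc hp hq hball hinv z hzb
  obtain ⟨h1, h2, h3⟩ := fX_lt hzb
  have hI := hinv (hz z) (-(z 1) / (1 - z 0) / (Complex.I * c))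
  rw [grp_n c hc] at hI
  have h22 : (2 * (1 - z 0) : ℂ) ≠ 0 := mul_ne_zero two_ne_zero h3
  refine f3_of hp hq ((2 * (1 - z 0) - z 1 ^ 2) / (2 * (1 - z 0))) (div_ne_zero h2 h22) ?_
    (hball z hzb) (hball _ ?_) hI
  · funext i
    fin_cases i
    · simp only [hz, Fin.zero_eta, Matrix.cons_val_zero, Matrix.cons_val_one, Matrix.cons_val]
      field_simp
      ring
    · simp only [hz, fX, Fin.mk_one, Matrix.cons_val_zero, Matrix.cons_val_one, Matrix.cons_val]
      obtain ⟨D, hD⟩ : ∃ D : ℂ, D = 2 * (1 - z 0) - z 1 ^ 2 := ⟨_, rfl⟩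
      rw [← hD] at h2 ⊢
      rw [div_mul_div_comm, mul_comm D, mul_div_mul_right _ _ h2]
      field_simp
      ring
    · simp only [hz, Fin.reduceFinMk, Matrix.cons_val_zero, Matrix.cons_val_one, Matrix.cons_val]
      field_simp
      ring
  · rw [mem_Bn2]
    simp only [Matrix.cons_val_zero, Matrix.cons_val_one]
    have := norm_nonneg (fX z)
    simp
    nlinarith

end

end Pool.Agent.Lib.MP_6ff8d9_an.N2
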