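import Pool.Agent.Lib.MP_6ff8d9_an_h33.Exp3

/-!
# MP_6ff8d9, dimension 2: homogeneous pairs, polynomial identities along curves
-/

open Metric Filter Topology MvPolynomial Matrix
open scoped ComplexConjugate

namespace Pool.Agent.Lib.MP_6ff8d9_an.N2

open Pool.Agent.Lib.MP_6ff8d9_an Pool.Agent.Lib.MP_6ff8d9_an.H22

noncomputable section

theorem ev_smul {N : ℕ} {p : MvPolynomial (Fin 3) ℂ} (hp : p.IsHomogeneous N) (c : ℂ)
    (Z : Fin 3 → ℂ) : eval (fun i => c * Z i) p = c ^ N * eval Z p := by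
  rw [eval_eq', eval_eq', Finset.mul_sum]
  refine Finset.sum_congr rfl fun d hd => ?_
  have h1 : ∑ i, d i = N := by
    have h2 := hp (mem_support_iff.1 hd)
    rw [← h2]
    simp [Finsupp.weight_apply, Finsupp.sum_fintype]
  simp only [mul_pow, Finset.prod_mul_distrib]
  rw [Finset.prod_pow_eq_pow_sum, h1]
  ring

theorem ev_aev (p : MvPolynomial (Fin 3) ℂ) (v : Fin 3 → Polynomial ℂ) (s : ℂ) :
    (MvPolynomial.aeval v p : Polynomial ℂ).eval s = eval (fun i => (v i).eval s) p := by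
  induction p using MvPolynomial.induction_on with
  | C a => simp
  | add p q hp hq => simp [hp, hq]
  | mul_X p i hp => simp [hp]

/-- polynomial identities along polynomial curves extend from infinite sets -/
theorem poly_all (p q : MvPolynomial (Fin 3) ℂ) (v : Fin 3 → Polynomial ℂ) (A B : ℂ)
    (S : Set ℂ) (hS : S.Infinite)
    (h : ∀ s ∈ S, eval (fun i => (v i).eval s) p * A = B * eval (fun i => (v i).eval s) q) :
    ∀ s : ℂ, eval (fun i => (v i).eval s) p * A = B * eval (fun i => (v i).eval s) q := by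
  set R : Polynomial ℂ := (MvPolynomial.aeval v p : Polynomial ℂ) * Polynomial.C A -
    Polynomial.C B * (MvPolynomial.aeval v q : Polynomial ℂ) with hR
  have hev : ∀ s, R.eval s = eval (fun i => (v i).eval s) p * A -
      B * eval (fun i => (v i).eval s) q := by
    intro s
    simp [hR, ev_aev]
  have h0 : R = 0 := by
    refine Polynomial.eq_zero_of_infinite_isRoot _ (hS.mono fun s hs => ?_)
    show R.eval s = 0
    rw [hev, h s hs, sub_self]
  intro s
  have := hev s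
  rw [h0, Polynomial.eval_zero] at this
  exact (sub_eq_zero.1 this.symm)

theorem mem_Bn2 {z : Fin 2 → ℂ} : z ∈ Bn 2 ↔ ‖z 0‖ ^ 2 + ‖z 1‖ ^ 2 < 1 := by
  simp [Bn, Fin.sum_univ_two]

theorem hz_eq (z : Fin 2 → ℂ) : hz z = ![1, z 0, z 1] := rfl

/-- conclusion from an identity with a scaled target point -/
theorem f3_of {N : ℕ} {p q : MvPolynomial (Fin 3) ℂ} (hp : p.IsHomogeneous N)
    (hq : q.IsHomogeneous N) {Z : Fin 3 → ℂ} {z w : Fin 2 → ℂ} (κ : ℂ) (hκ : κ ≠ 0)
    (hZ : Z = fun i => κ * hz w i) (hqz : eval (hz z) q ≠ 0) (hqw : eval (hz w) q ≠ 0)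
    (h : eval Z p * eval (hz z) q = eval (hz z) p * eval Z q) : f3 p q z = f3 p q w := by
  rw [hZ, ev_smul hp, ev_smul hq] at h
  rw [f3, f3, div_eq_div_iff hqz hqw]
  have hκN : κ ^ N ≠ 0 := pow_ne_zero _ hκ
  have h2 : κ ^ N * (eval (hz w) p * eval (hz z) q) = κ ^ N * (eval (hz z) p * eval (hz w) q) := by
    linear_combination h
  have := mul_left_cancel₀ hκN h2
  linear_combination -this

theorem fX_lt {z : Fin 2 → ℂ} (hz : z ∈ Bn 2) :
    ‖fX z‖ < 1 ∧ 2 * (1 - z 0) - z 1 ^ 2 ≠ 0 ∧ (1 - z 0 : ℂ) ≠ 0 := by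
  rw [mem_Bn2] at hz
  obtain ⟨a, ha⟩ : ∃ a : ℂ, a = 1 - z 0 := ⟨_, rfl⟩
  have hn : Complex.normSq a = 1 - 2 * (z 0).re + ‖z 0‖ ^ 2 := by
    rw [ha, Complex.normSq_sub, ← Complex.normSq_eq_norm_sq]
    simp
    ring
  have hre : a.re = 1 - (z 0).re := by rw [ha]; simp
  have key : Complex.normSq a < 2 * a.re - ‖z 1‖ ^ 2 := by rw [hn, hre]; linarith
  have hn0 : 0 ≤ Complex.normSq a := Complex.normSq_nonneg a
  have hle : a.re ≤ ‖a‖ := Complex.re_le_norm a
  have ha0 : a ≠ 0 := by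
    intro h
    rw [h] at key
    simp at key
    nlinarith [norm_nonneg (z 1)]
  have hnp : 0 < Complex.normSq a := Complex.normSq_pos.2 ha0
  have hD : 2 * a - z 1 ^ 2 ≠ 0 := by
    intro h
    have h1 : 2 * a = z 1 ^ 2 := sub_eq_zero.1 h
    have h2 : 2 * ‖a‖ = ‖z 1‖ ^ 2 := by
      have := congrArg norm h1
      simpa [norm_mul, norm_pow] using this
    linarith
  refine ⟨?_, by rw [← ha]; exact hD, by rw [← ha]; exact ha0⟩
  have hnum : 2 * z 0 * (1 - z 0) - z 1 ^ 2 = (2 * a - z 1 ^ 2) - 2 * a ^ 2 := by rw [ha]; ring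
  rw [fX, hnum, ← ha, norm_div, div_lt_one (norm_pos_iff.2 hD)]
  refine lt_of_pow_lt_pow_left₀ 2 (norm_nonneg _) ?_
  rw [← Complex.normSq_eq_norm_sq, ← Complex.normSq_eq_norm_sq, Complex.normSq_sub]
  have h1 : Complex.normSq (2 * a ^ 2) = 4 * Complex.normSq a ^ 2 := by
    simp [Complex.normSq_mul]; norm_num
  have h2 : ((2 * a - z 1 ^ 2) * conj (2 * a ^ 2)).re =
      4 * Complex.normSq a * a.re - 2 * (z 1 ^ 2 * (conj a) ^ 2).re := by
    have e : (2 * a - z 1 ^ 2) * conj (2 * a ^ 2) =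
        4 * (a * conj a) * conj a - 2 * (z 1 ^ 2 * (conj a) ^ 2) := by
      simp only [map_mul, map_pow, Complex.conj_ofNat]; ring
    rw [e, Complex.mul_conj, Complex.sub_re]
    have e2 : (4 * (Complex.normSq a : ℂ) * conj a).re = 4 * Complex.normSq a * a.re := by
      rw [show (4 * (Complex.normSq a : ℂ)) = ((4 * Complex.normSq a : ℝ) : ℂ) by push_cast; ring,
        Complex.re_ofReal_mul, Complex.conj_re]
    have e3 : (2 * (z 1 ^ 2 * (conj a) ^ 2)).re = 2 * (z 1 ^ 2 * (conj a) ^ 2).re := by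
      rw [show (2 : ℂ) = ((2 : ℝ) : ℂ) by norm_num, Complex.re_ofReal_mul]
    rw [e2, e3]
  have h3 : (z 1 ^ 2 * (conj a) ^ 2).re ≤ ‖z 1‖ ^ 2 * Complex.normSq a := by
    refine le_trans (Complex.re_le_norm _) (le_of_eq ?_)
    rw [norm_mul, norm_pow, norm_pow, Complex.norm_conj, Complex.normSq_eq_norm_sq]
  rw [h1, h2]
  nlinarith [mul_pos hnp (sub_pos.2 key)]

/-- scaling the first coordinate to infinity -/
theorem lim_E {N : ℕ} {p q : MvPolynomial (Fin 3) ℂ} (hp : p.IsHomogeneous N)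
    (hq : q.IsHomogeneous N) (y A B : ℂ)
    (h : ∀ E : ℂ, E ≠ 0 → eval ![E, 0, y] p * A = B * eval ![E, 0, y] q) :
    eval (hz 0) p * A = B * eval (hz 0) q := by
  have h1 : ∀ e : ℂ, e ≠ 0 → eval ![1, 0, e * y] p * A = B * eval ![1, 0, e * y] q := by
    intro e he
    have h2 := h e⁻¹ (inv_ne_zero he)
    have e1 : (![e⁻¹, 0, y] : Fin 3 → ℂ) = fun i => e⁻¹ * (![1, 0, e * y] : Fin 3 → ℂ) i := by
      funext i
      fin_cases i
      · simp
      · simp
      · simp [← mul_assoc, inv_mul_cancel₀ he]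
    rw [e1, ev_smul hp, ev_smul hq] at h2
    have hN : (e⁻¹) ^ N ≠ 0 := pow_ne_zero _ (inv_ne_zero he)
    refine mul_left_cancel₀ hN ?_
    linear_combination h2
  set v : Fin 3 → Polynomial ℂ := ![1, 0, Polynomial.X * Polynomial.C y] with hv
  have hvs : ∀ e : ℂ, (fun i => (v i).eval e) = ![1, 0, e * y] := by
    intro e
    funext i
    fin_cases i
    · simp [hv]
    · simp [hv]
    · simp [hv]
      ring
  have hS : ({0}ᶜ : Set ℂ).Infinite := Set.Finite.infinite_compl (Set.finite_singleton 0)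
  have h3 := poly_all p q v A B _ hS (fun e he => by rw [hvs]; exact h1 e he) 0
  rw [hvs] at h3
  have e2 : hz 0 = ![1, 0, 0 * y] := by
    funext i
    fin_cases i <;> simp [hz]
  rw [e2]
  exact h3

end

end Pool.Agent.Lib.MP_6ff8d9_an.N2
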